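import Pool.Agent.Work.MP_5cc51b_al.Main

/-!
# Every finitely generated diagram group has the Burillo property

For every semigroup presentation `P`, every base word `w` and every finite generating set `S` of
the diagram group `D(P, w)`, the word length with respect to `S` is bi-Lipschitz equivalent to the
number of cells of the reduced diagram.
-/

set_option autoImplicit false

namespace Pool.Agent.Results.MP_5cc51b_al.Burillo

open Pool.Agent.Work.MP_5cc51b_al Pool.Agent.Work.MP_5cc51b_al.SgPres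

theorem result {A ι : Type*} (P : SgPres A ι) (w : List A) (S : Set (DiagramGroup P w))
    (hfin : S.Finite) (hgen : Subgroup.closure S = ⊤) :
    ∃ C : ℝ, 1 ≤ C ∧ ∀ g : DiagramGroup P w, ∃ n : ℕ, IsDiagramLength P g n ∧
      C⁻¹ * (wordLength S g : ℝ) ≤ n ∧ (n : ℝ) ≤ C * wordLength S g := by
  classical
  obtain ⟨C₁, h1⟩ := SgPres.upper hfin hgen
  obtain ⟨C₂, h2⟩ := SgPres.lower hfin hgen
  refine ⟨(C₁ : ℝ) + C₂ + 1, by
    have : (0 : ℝ) ≤ C₁ := Nat.cast_nonneg _
    have : (0 : ℝ) ≤ C₂ := Nat.cast_nonneg _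
    linarith, fun g => ⟨(gnf g).length, isDiagramLength_gnf g, ?_, ?_⟩⟩
  · have h3 : (0 : ℝ) < (C₁ : ℝ) + C₂ + 1 := by positivity
    rw [inv_mul_le_iff₀ h3]
    have h4 : (wordLength S g : ℝ) ≤ C₁ * (gnf g).length := by exact_mod_cast h1 g
    have h5 : (0 : ℝ) ≤ ((gnf g).length : ℝ) := Nat.cast_nonneg _
    have h6 : (0 : ℝ) ≤ C₂ * ((gnf g).length : ℝ) := by positivity
    nlinarith
  · have h4 : ((gnf g).length : ℝ) ≤ C₂ * wordLength S g := by exact_mod_cast h2 g
    have h5 : (0 : ℝ) ≤ (wordLength S g : ℝ) := Nat.cast_nonneg _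
    have h6 : (0 : ℝ) ≤ C₁ * (wordLength S g : ℝ) := by positivity
    nlinarith

end Pool.Agent.Results.MP_5cc51b_al.Burillo
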